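import Mathlib

/-!
A single-letter inequality for entropies of projections with small fibres.
-/

namespace Pool.Agent.U685.LM

open Finset

variable {ι U : Type*}

/-- `∑ P v log (Q / P v) ≤ Q log |F|`. -/
lemma jensen_fibre (F : Finset ι) (P : ι → ℝ) (hP : ∀ v ∈ F, 0 < P v) (m : ℕ)
    (hm : F.card ≤ m) (hF : F.Nonempty) :
    ∑ v ∈ F, P v * Real.log ((∑ w ∈ F, P w) / P v) ≤ (∑ w ∈ F, P w) * Real.log m := by
  obtain ⟨Q, hQ⟩ : ∃ Q, Q = ∑ w ∈ F, P w := ⟨_, rfl⟩
  rw [← hQ]
  have hQ0 : 0 < Q := by rw [hQ]; exact Finset.sum_pos hP hF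
  have hc : (0 : ℝ) < F.card := by exact_mod_cast hF.card_pos
  have hm0 : (0 : ℝ) < m := lt_of_lt_of_le hc (by exact_mod_cast hm)
  -- log x ≤ log c + x / c - 1
  have h1 : ∀ v ∈ F, P v * Real.log (Q / P v) ≤
      P v * Real.log F.card + (Q / F.card - P v) := by
    intro v hv
    have hv0 := hP v hv
    have h2 : Real.log (Q / P v / F.card) ≤ Q / P v / F.card - 1 :=
      Real.log_le_sub_one_of_pos (by positivity)
    rw [Real.log_div (by positivity) hc.ne'] at h2
    have h3 := mul_le_mul_of_nonneg_left h2 hv0.le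
    have h4 : P v * (Q / P v / F.card - 1) = Q / F.card - P v := by
      field_simp
    rw [h4] at h3
    linarith
  refine (Finset.sum_le_sum h1).trans ?_
  rw [Finset.sum_add_distrib, ← Finset.sum_mul, ← hQ, Finset.sum_sub_distrib, Finset.sum_const,
    ← hQ, nsmul_eq_mul]
  have h5 : (F.card : ℝ) * (Q / F.card) - Q = 0 := by field_simp; ring
  rw [h5, add_zero]
  exact mul_le_mul_of_nonneg_left (Real.log_le_log hc (by exact_mod_cast hm)) hQ0.le

/-- The loss of one fibre. -/
lemma fibre_loss (F : Finset ι) (P : ι → ℝ) (hP : ∀ v ∈ F, 0 < P v) (hP1 : ∑ v ∈ F, P v ≤ 1)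
    (m : ℕ) (hm : F.card ≤ m) (hF : F.Nonempty) (lam : ℝ) [DecidableEq ι]
    [∀ v, Decidable (∃ w ∈ F, w ≠ v ∧ lam ≤ P w ∧ P v ≤ P w)] :
    ∑ v ∈ F, P v * Real.log ((∑ w ∈ F, P w) / P v) ≤
      ∑ v ∈ F, ((if P v < lam then P v * Real.log m else 0) +
        (if ∃ w ∈ F, w ≠ v ∧ lam ≤ P w ∧ P v ≤ P w then P v * (1 + Real.log (1 / P v)) else 0)) := by
  have hle1 : ∀ v ∈ F, P v ≤ 1 := fun v hv =>
    (Finset.single_le_sum (fun w hw => (hP w hw).le) hv).trans hP1
  have hm1 : 1 ≤ m := hF.card_pos.trans_le hm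
  have hlogm : 0 ≤ Real.log m := Real.log_natCast_nonneg m
  have hg : ∀ v ∈ F, 0 ≤ P v * (1 + Real.log (1 / P v)) := by
    intro v hv
    apply mul_nonneg (hP v hv).le
    have : 0 ≤ Real.log (1 / P v) := Real.log_nonneg (by
      rw [le_div_iff₀ (hP v hv)]; linarith [hle1 v hv])
    linarith
  obtain ⟨w, hw, hmax⟩ := Finset.exists_max_image F P hF
  obtain ⟨Q, hQ⟩ : ∃ Q, Q = ∑ w ∈ F, P w := ⟨_, rfl⟩
  have hQ0 : 0 < Q := by rw [hQ]; exact Finset.sum_pos hP hF
  by_cases hl : P w < lam
  · refine (jensen_fibre F P hP m hm hF).trans ?_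
    rw [Finset.sum_mul]
    apply Finset.sum_le_sum
    intro v hv
    rw [if_pos (lt_of_le_of_lt (hmax v hv) hl)]
    split_ifs
    · linarith [hg v hv]
    · linarith
  · push Not at hl
    rw [← Finset.add_sum_erase F _ hw, ← Finset.add_sum_erase F (fun v => ((if P v < lam then _
      else _) + _ : ℝ)) hw]
    have h1 : P w * Real.log ((∑ w ∈ F, P w) / P w) ≤ ∑ v ∈ F.erase w, P v := by
      have hw0 := hP w hw
      have h2 : Real.log (Q / P w) ≤ Q / P w - 1 := Real.log_le_sub_one_of_pos (by positivity)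
      have h3 := mul_le_mul_of_nonneg_left h2 hw0.le
      have h4 : P w * (Q / P w - 1) = Q - P w := by field_simp
      rw [h4] at h3
      rw [← hQ]
      have h5 := Finset.add_sum_erase F P hw
      linarith
    have h2 : ∀ v ∈ F.erase w, P v * Real.log ((∑ w ∈ F, P w) / P v) ≤
        P v * Real.log (1 / P v) := by
      intro v hv
      have hv' := Finset.mem_of_mem_erase hv
      have hv0 := hP v hv'
      apply mul_le_mul_of_nonneg_left _ hv0.le
      apply Real.log_le_log
      · rw [← hQ]; positivity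
      · gcongr
    have h3 : (0 : ℝ) ≤ (if P w < lam then P w * Real.log m else 0) +
        (if ∃ w' ∈ F, w' ≠ w ∧ lam ≤ P w' ∧ P w ≤ P w' then P w * (1 + Real.log (1 / P w))
          else 0) := by
      have := hg w hw
      have := (hP w hw).le
      have : 0 ≤ P w * Real.log m := by positivity
      split_ifs <;> linarith
    have h4 : ∀ v ∈ F.erase w, P v + P v * Real.log (1 / P v) ≤
        (if P v < lam then P v * Real.log m else 0) +
        (if ∃ w' ∈ F, w' ≠ v ∧ lam ≤ P w' ∧ P v ≤ P w' then P v * (1 + Real.log (1 / P v))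
          else 0) := by
      intro v hv
      have hv' := Finset.mem_of_mem_erase hv
      have hne := Finset.ne_of_mem_erase hv
      rw [if_pos (⟨w, hw, hne.symm, hl, hmax v hv'⟩ :
        ∃ w' ∈ F, w' ≠ v ∧ lam ≤ P w' ∧ P v ≤ P w')]
      have : 0 ≤ P v * Real.log m := mul_nonneg (hP v hv').le hlogm
      split_ifs <;> linarith
    have h5 := Finset.sum_le_sum h2
    have h6 := Finset.sum_le_sum h4
    rw [Finset.sum_add_distrib] at h6
    linarith

/-- **The single-letter inequality.** -/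
theorem single [DecidableEq ι] [DecidableEq U] (D : Finset ι) (P : ι → ℝ)
    (hP : ∀ v ∈ D, 0 < P v) (hP1 : ∑ v ∈ D, P v = 1) (κ : Type*) [Fintype κ] (f : κ → ι → U)
    (m : ℕ) (hm : ∀ r, ∀ v ∈ D, (D.filter fun w => f r w = f r v).card ≤ m)
    (hf : ∀ v ∈ D, ∀ w ∈ D, v ≠ w → ∀ r s, f r v = f r w → f s v = f s w → r = s)
    (lam : ℝ) (hl0 : 0 < lam) (hl1 : lam < 1) :
    ∑ r, ∑ v ∈ D, P v * Real.log ((∑ w ∈ D.filter fun w => f r w = f r v, P w) / P v) ≤
      ((Fintype.card κ : ℝ) * (Real.log m / Real.log (1 / lam)) + (5 / 2) / lam) *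
        ∑ v ∈ D, P v * Real.log (1 / P v) := by
  classical
  have hle1 : ∀ v ∈ D, P v ≤ 1 := fun v hv => by
    rw [← hP1]; exact Finset.single_le_sum (fun w hw => (hP w hw).le) hv
  have hlog : ∀ v ∈ D, 0 ≤ Real.log (1 / P v) := fun v hv => Real.log_nonneg (by
      rw [le_div_iff₀ (hP v hv)]; linarith [hle1 v hv])
  obtain ⟨H, hH⟩ : ∃ H, H = ∑ v ∈ D, P v * Real.log (1 / P v) := ⟨_, rfl⟩
  rw [← hH]
  have hH0 : 0 ≤ H := by
    rw [hH]; exact Finset.sum_nonneg fun v hv => mul_nonneg (hP v hv).le (hlog v hv)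
  have hll : 0 < Real.log (1 / lam) := Real.log_pos (by rw [lt_div_iff₀ hl0]; linarith)
  have hlogm : 0 ≤ Real.log m := Real.log_natCast_nonneg m
  obtain ⟨g, hg⟩ : ∃ g : ι → ℝ, g = fun v => P v * (1 + Real.log (1 / P v)) := ⟨_, rfl⟩
  -- the sets of collisions
  obtain ⟨W, hW⟩ : ∃ W : ι → Finset ι, W = fun v => D.filter (fun w => w ≠ v ∧ lam ≤ P w ∧
    P v ≤ P w) := ⟨_, rfl⟩
  have step1 : ∀ r, ∑ v ∈ D, P v * Real.log ((∑ w ∈ D.filter fun w => f r w = f r v, P w) / P v) ≤
      ∑ v ∈ D, ((if P v < lam then P v * Real.log m else 0) +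
        (if ∃ w ∈ W v, f r w = f r v then g v else 0)) := by
    intro r
    rw [← Finset.sum_fiberwise_of_maps_to (g := f r) (t := D.image (f r))
      (fun a ha => Finset.mem_image_of_mem _ ha),
      ← Finset.sum_fiberwise_of_maps_to (g := f r) (t := D.image (f r))
      (fun a ha => Finset.mem_image_of_mem _ ha)]
    apply Finset.sum_le_sum
    intro u hu
    obtain ⟨v0, hv0, rfl⟩ := Finset.mem_image.1 hu
    obtain ⟨F, hF⟩ : ∃ F, F = D.filter (fun w => f r w = f r v0) := ⟨_, rfl⟩
    rw [← hF]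
    have hFD : ∀ v ∈ F, v ∈ D := fun v hv => by rw [hF] at hv; exact (Finset.mem_filter.1 hv).1
    have hFf : ∀ v ∈ F, f r v = f r v0 := fun v hv => by
      rw [hF] at hv; exact (Finset.mem_filter.1 hv).2
    have hsumF : ∑ v ∈ F, P v ≤ 1 := by
      rw [← hP1]
      exact Finset.sum_le_sum_of_subset_of_nonneg hFD fun v hv _ => (hP v hv).le
    have h1 := fibre_loss F P (fun v hv => hP v (hFD v hv)) hsumF m
      (by rw [hF]; exact hm r v0 hv0) ⟨v0, by rw [hF]; exact Finset.mem_filter.2 ⟨hv0, rfl⟩⟩ lam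
    refine le_trans (le_of_eq ?_) (h1.trans ?_)
    · refine Finset.sum_congr rfl fun v hv => ?_
      rw [hFf v hv, hF]
    · apply Finset.sum_le_sum
      intro v hv
      rw [hg]
      dsimp only
      apply add_le_add le_rfl
      by_cases hc : ∃ w ∈ F, w ≠ v ∧ lam ≤ P w ∧ P v ≤ P w
      · obtain ⟨w, hw, h2⟩ := hc
        have h3 : ∃ w ∈ W v, f r w = f r v := ⟨w, by
          rw [hW]; exact Finset.mem_filter.2 ⟨hFD w hw, h2⟩, by rw [hFf w hw, hFf v hv]⟩
        rw [if_pos ⟨w, hw, h2⟩, if_pos h3]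
      · rw [if_neg hc]
        split_ifs
        · exact mul_nonneg (hP v (hFD v hv)).le (by linarith [hlog v (hFD v hv)])
        · exact le_rfl
  refine (Finset.sum_le_sum fun r _ => step1 r).trans ?_
  rw [Finset.sum_comm]
  -- the light part
  have h2 : ∑ v ∈ D, (if P v < lam then P v * Real.log m else 0) ≤
      Real.log m / Real.log (1 / lam) * H := by
    rw [hH, Finset.mul_sum]
    apply Finset.sum_le_sum
    intro v hv
    split_ifs with h
    · have h3 : Real.log (1 / lam) ≤ Real.log (1 / P v) := by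
        apply Real.log_le_log (by positivity)
        exact one_div_le_one_div_of_le (hP v hv) h.le
      rw [div_mul_eq_mul_div, le_div_iff₀ hll]
      have := mul_le_mul_of_nonneg_left h3 (mul_nonneg (hP v hv).le hlogm)
      linarith
    · exact mul_nonneg (div_nonneg hlogm hll.le) (mul_nonneg (hP v hv).le (hlog v hv))
  -- the heavy part
  have hcardW : ∀ v ∈ D, ((W v).card : ℝ) ≤ 1 / lam := by
    intro v _
    rw [le_div_iff₀ hl0]
    have h3 : ∑ w ∈ W v, lam ≤ ∑ w ∈ W v, P w := by
      apply Finset.sum_le_sum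
      intro w hw
      rw [hW] at hw
      exact (Finset.mem_filter.1 hw).2.2.1
    have h4 : ∑ w ∈ W v, P w ≤ 1 := by
      rw [← hP1]
      apply Finset.sum_le_sum_of_subset_of_nonneg
      · rw [hW]; exact Finset.filter_subset _ _
      · intro w hw _; exact (hP w hw).le
    rw [Finset.sum_const, nsmul_eq_mul] at h3
    linarith
  have hcount : ∀ v ∈ D, ((univ.filter fun r => ∃ w ∈ W v, f r w = f r v).card : ℝ) ≤
      (W v).card := by
    intro v hv
    have : (univ.filter fun r => ∃ w ∈ W v, f r w = f r v).card ≤ (W v).card := by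
      have hch : ∀ r, ∃ w, (∃ w ∈ W v, f r w = f r v) → w ∈ W v ∧ f r w = f r v := by
        intro r
        by_cases h : ∃ w ∈ W v, f r w = f r v
        · obtain ⟨w, hw⟩ := h
          exact ⟨w, fun _ => hw⟩
        · exact ⟨v, fun h' => absurd h' h⟩
      choose c hc using hch
      apply Finset.card_le_card_of_injOn c
      · intro r hr
        exact (hc r (Finset.mem_filter.1 hr).2).1
      · intro r hr s hs hrs
        have h3 := hc r (Finset.mem_filter.1 hr).2
        have h4 := hc s (Finset.mem_filter.1 hs).2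
        rw [← hrs] at h4
        have h5 : c r ∈ W v := h3.1
        rw [hW] at h5
        obtain ⟨h6, h7, _⟩ := Finset.mem_filter.1 h5
        exact hf (c r) h6 v hv h7 r s h3.2 h4.2
    exact_mod_cast this
  have h3 : ∀ v ∈ D, ∑ r : κ, ((if P v < lam then P v * Real.log m else 0) +
      (if ∃ w ∈ W v, f r w = f r v then g v else 0)) ≤
      (Fintype.card κ : ℝ) * (if P v < lam then P v * Real.log m else 0) +
        (5 / 2) / lam * (P v * Real.log (1 / P v)) := by
    intro v hv
    rw [Finset.sum_add_distrib, Finset.sum_const, Finset.card_univ, nsmul_eq_mul]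
    apply add_le_add le_rfl
    rw [← Finset.sum_filter, Finset.sum_const, nsmul_eq_mul]
    rcases (W v).eq_empty_or_nonempty with he | ⟨w, hw⟩
    · have : (univ.filter fun r : κ => ∃ w ∈ W v, f r w = f r v) = ∅ := by
        rw [he]; simp
      rw [this, Finset.card_empty]
      have := mul_nonneg (hP v hv).le (hlog v hv)
      push_cast
      rw [zero_mul]
      positivity
    · have hw' := hw
      rw [hW] at hw'
      obtain ⟨hwD, hwne, hwl, hwv⟩ := Finset.mem_filter.1 hw'
      have hhalf : P v ≤ 1 / 2 := by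
        have h4 : P v + P w ≤ 1 := by
          rw [← hP1, ← Finset.sum_pair hwne.symm]
          apply Finset.sum_le_sum_of_subset_of_nonneg
          · intro x hx
            rcases Finset.mem_insert.1 hx with rfl | hx
            · exact hv
            · rw [Finset.mem_singleton.1 hx]; exact hwD
          · intro x hx _; exact (hP x hx).le
        linarith
      have hlog2 : 2 / 3 ≤ Real.log (1 / P v) := by
        have h4 : Real.log 2 ≤ Real.log (1 / P v) := by
          apply Real.log_le_log (by norm_num)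
          rw [le_div_iff₀ (hP v hv)]; linarith
        have := Real.log_two_gt_d9
        linarith
      have hgv : g v ≤ (5 / 2) * (P v * Real.log (1 / P v)) := by
        rw [hg]
        dsimp only
        nlinarith [hP v hv]
      have hg0 : 0 ≤ g v := by
        rw [hg]; exact mul_nonneg (hP v hv).le (by linarith [hlog v hv])
      calc ((univ.filter fun r : κ => ∃ w ∈ W v, f r w = f r v).card : ℝ) * g v ≤
          (1 / lam) * g v :=
            mul_le_mul_of_nonneg_right ((hcount v hv).trans (hcardW v hv)) hg0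
        _ ≤ (1 / lam) * ((5 / 2) * (P v * Real.log (1 / P v))) :=
            mul_le_mul_of_nonneg_left hgv (by positivity)
        _ = _ := by ring
  refine (Finset.sum_le_sum h3).trans ?_
  rw [Finset.sum_add_distrib, ← Finset.mul_sum, ← Finset.mul_sum, ← hH, add_mul]
  apply add_le_add _ le_rfl
  rw [mul_assoc]
  exact mul_le_mul_of_nonneg_left h2 (Nat.cast_nonneg _)

end Pool.Agent.U685.LM
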