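import Mathlib
import Pool.Agent.U685.LM.Single

/-!
The functional form of the single-letter inequality.
-/

namespace Pool.Agent.U685.LM

open Finset

variable {ι U : Type*}

/-- Gibbs' inequality. -/
lemma gibbs (S : Finset U) (hS : S.Nonempty) (p x : U → ℝ) (hp : ∀ u ∈ S, 0 < p u)
    (hp1 : ∑ u ∈ S, p u = 1) (hx : ∀ u ∈ S, 0 < x u) :
    ∑ u ∈ S, p u * Real.log (x u / p u) ≤ Real.log (∑ u ∈ S, x u) := by
  obtain ⟨X, hX⟩ : ∃ X, X = ∑ u ∈ S, x u := ⟨_, rfl⟩
  rw [← hX]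
  have hX0 : 0 < X := by rw [hX]; exact Finset.sum_pos hx hS
  have h1 : ∀ u ∈ S, p u * Real.log (x u / p u) ≤ p u * Real.log X + (x u / X - p u) := by
    intro u hu
    have hp0 := hp u hu
    have hx0 := hx u hu
    have h2 : Real.log (x u / p u / X) ≤ x u / p u / X - 1 :=
      Real.log_le_sub_one_of_pos (by positivity)
    rw [Real.log_div (by positivity) hX0.ne'] at h2
    have h3 := mul_le_mul_of_nonneg_left h2 hp0.le
    have h4 : p u * (x u / p u / X - 1) = x u / X - p u := by field_simp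
    rw [h4] at h3
    linarith
  refine (Finset.sum_le_sum h1).trans ?_
  rw [Finset.sum_add_distrib, ← Finset.sum_mul, hp1, Finset.sum_sub_distrib, ← Finset.sum_div,
    ← hX, hp1, div_self hX0.ne']
  linarith

/-- The constant. -/
noncomputable def eta (k m : ℕ) (lam : ℝ) : ℝ :=
  Real.log m / Real.log (1 / lam) + (5 / 2) / (lam * k)

theorem functional [DecidableEq ι] [DecidableEq U] (D : Finset ι) (hD : D.Nonempty)
    (κ : Type*) [Fintype κ] [Nonempty κ] (f : κ → ι → U)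
    (m : ℕ) (hm : ∀ r, ∀ v ∈ D, (D.filter fun w => f r w = f r v).card ≤ m)
    (hf : ∀ v ∈ D, ∀ w ∈ D, v ≠ w → ∀ r s, f r v = f r w → f s v = f s w → r = s)
    (lam : ℝ) (hl0 : 0 < lam) (hl1 : lam < 1) (heta : eta (Fintype.card κ) m lam < 1)
    (p : κ → ι → ℝ) (hp : ∀ r, ∀ v ∈ D, 0 < p r v) (N : κ → U → ℝ)
    (hN : ∀ r, ∀ v ∈ D, p r v ≤ N r (f r v)) :
    ∑ v ∈ D, (∏ r, p r v) ^ (1 / (Fintype.card κ * (1 - eta (Fintype.card κ) m lam)) : ℝ) ≤
      (∏ r, ∑ u ∈ D.image (f r), N r u) ^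
        (1 / (Fintype.card κ * (1 - eta (Fintype.card κ) m lam)) : ℝ) := by
  obtain ⟨k, hk⟩ : ∃ k : ℝ, k = Fintype.card κ := ⟨_, rfl⟩
  obtain ⟨η, hη⟩ : ∃ η, η = eta (Fintype.card κ) m lam := ⟨_, rfl⟩
  rw [← hη] at heta
  rw [← hk, ← hη]
  have hk0 : 0 < k := by rw [hk]; exact_mod_cast Fintype.card_pos
  have h1η : 0 < 1 - η := by linarith
  obtain ⟨θ, hθ⟩ : ∃ θ, θ = 1 / (k * (1 - η)) := ⟨_, rfl⟩
  rw [← hθ]
  have hθ0 : 0 < θ := by rw [hθ]; positivity
  obtain ⟨a, ha⟩ : ∃ a : ι → ℝ, a = fun v => (∏ r, p r v) ^ θ := ⟨_, rfl⟩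
  have hpp : ∀ v ∈ D, 0 < ∏ r, p r v := fun v hv => Finset.prod_pos fun r _ => hp r v hv
  have ha0 : ∀ v ∈ D, 0 < a v := by
    intro v hv; rw [ha]; exact Real.rpow_pos_of_pos (hpp v hv) _
  obtain ⟨Z, hZ⟩ : ∃ Z, Z = ∑ v ∈ D, a v := ⟨_, rfl⟩
  have hZ0 : 0 < Z := by rw [hZ]; exact Finset.sum_pos ha0 hD
  have hZ' : ∑ v ∈ D, (∏ r, p r v) ^ θ = Z := by rw [hZ, ha]
  rw [hZ']
  obtain ⟨P, hPd⟩ : ∃ P : ι → ℝ, P = fun v => a v / Z := ⟨_, rfl⟩
  have hP : ∀ v ∈ D, 0 < P v := by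
    intro v hv; rw [hPd]; exact div_pos (ha0 v hv) hZ0
  have hP1 : ∑ v ∈ D, P v = 1 := by
    rw [hPd, ← Finset.sum_div, ← hZ, div_self hZ0.ne']
  obtain ⟨H, hH⟩ : ∃ H, H = ∑ v ∈ D, P v * Real.log (1 / P v) := ⟨_, rfl⟩
  obtain ⟨Pr, hPr⟩ : ∃ Pr : κ → U → ℝ, Pr = fun r u => ∑ w ∈ D.filter (fun w => f r w = u), P w :=
    ⟨_, rfl⟩
  have hPr0 : ∀ r, ∀ v ∈ D, 0 < Pr r (f r v) := by
    intro r v hv
    rw [hPr]
    apply Finset.sum_pos
    · intro w hw; exact hP w (Finset.mem_filter.1 hw).1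
    · exact ⟨v, Finset.mem_filter.2 ⟨hv, rfl⟩⟩
  have hsingle := single D P hP hP1 κ f m hm hf lam hl0 hl1
  rw [← hH, ← hk] at hsingle
  have hηk : k * (Real.log m / Real.log (1 / lam)) + (5 / 2) / lam = k * η := by
    rw [hη]
    unfold eta
    rw [← hk]
    field_simp
  rw [hηk] at hsingle
  -- entropies
  have hloss : ∀ r, ∑ v ∈ D, P v * Real.log ((∑ w ∈ D.filter fun w => f r w = f r v, P w) / P v) =
      H - ∑ v ∈ D, P v * Real.log (1 / Pr r (f r v)) := by
    intro r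
    rw [hH, ← Finset.sum_sub_distrib]
    refine Finset.sum_congr rfl fun v hv => ?_
    have e1 : (∑ w ∈ D.filter fun w => f r w = f r v, P w) = Pr r (f r v) := by rw [hPr]
    rw [e1, Real.log_div (hPr0 r v hv).ne' (hP v hv).ne', one_div, one_div, Real.log_inv,
      Real.log_inv]
    ring
  simp only [hloss] at hsingle
  rw [Finset.sum_sub_distrib, Finset.sum_const, Finset.card_univ, nsmul_eq_mul, ← hk] at hsingle
  -- `log Z`
  have hlogZ : Real.log Z = H + θ * ∑ r, ∑ v ∈ D, P v * Real.log (p r v) := by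
    have h1 : ∀ v ∈ D, P v * Real.log Z = P v * Real.log (1 / P v) +
        θ * ∑ r, P v * Real.log (p r v) := by
      intro v hv
      have h2 : Real.log (a v) = θ * ∑ r, Real.log (p r v) := by
        rw [ha]
        dsimp only
        rw [Real.log_rpow (hpp v hv), Real.log_prod (fun r _ => (hp r v hv).ne')]
      have h3 : Real.log (1 / P v) = Real.log Z - Real.log (a v) := by
        rw [hPd]
        dsimp only
        rw [one_div_div, Real.log_div hZ0.ne' (ha0 v hv).ne']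
      rw [h3, h2, ← Finset.mul_sum]
      ring
    have h4 := Finset.sum_congr rfl h1
    rw [← Finset.sum_mul, hP1, one_mul, Finset.sum_add_distrib, ← hH, ← Finset.mul_sum,
      Finset.sum_comm] at h4
    exact h4
  -- Gibbs for every projection
  have hgibbs : ∀ r, ∑ v ∈ D, P v * Real.log (1 / Pr r (f r v)) +
      ∑ v ∈ D, P v * Real.log (p r v) ≤ Real.log (∑ u ∈ D.image (f r), N r u) := by
    intro r
    have hN0 : ∀ v ∈ D, 0 < N r (f r v) := fun v hv => (hp r v hv).trans_le (hN r v hv)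
    have h1 : ∑ v ∈ D, P v * Real.log (1 / Pr r (f r v)) + ∑ v ∈ D, P v * Real.log (p r v) ≤
        ∑ v ∈ D, P v * Real.log (N r (f r v) / Pr r (f r v)) := by
      rw [← Finset.sum_add_distrib]
      apply Finset.sum_le_sum
      intro v hv
      rw [← mul_add]
      apply mul_le_mul_of_nonneg_left _ (hP v hv).le
      rw [one_div, Real.log_inv, Real.log_div (hN0 v hv).ne' (hPr0 r v hv).ne']
      have := Real.log_le_log (hp r v hv) (hN r v hv)
      linarith
    refine h1.trans ?_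
    have h2 : ∑ v ∈ D, P v * Real.log (N r (f r v) / Pr r (f r v)) =
        ∑ u ∈ D.image (f r), Pr r u * Real.log (N r u / Pr r u) := by
      rw [← Finset.sum_fiberwise_of_maps_to (g := f r) (t := D.image (f r))
        (fun a ha => Finset.mem_image_of_mem _ ha)]
      refine Finset.sum_congr rfl fun u hu => ?_
      have e1 : Pr r u = ∑ w ∈ D.filter (fun w => f r w = u), P w := by rw [hPr]
      rw [e1, Finset.sum_mul]
      refine Finset.sum_congr rfl fun v hv => ?_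
      rw [(Finset.mem_filter.1 hv).2, e1]
    rw [h2]
    apply gibbs _ (hD.image _)
    · intro u hu
      obtain ⟨v, hv, rfl⟩ := Finset.mem_image.1 hu
      exact hPr0 r v hv
    · rw [← hP1, ← Finset.sum_fiberwise_of_maps_to (g := f r) (t := D.image (f r))
        (fun a ha => Finset.mem_image_of_mem _ ha)]
      rw [hPr]
    · intro u hu
      obtain ⟨v, hv, rfl⟩ := Finset.mem_image.1 hu
      exact hN0 v hv
  have hS0 : ∀ r, 0 < ∑ u ∈ D.image (f r), N r u := by
    intro r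
    apply Finset.sum_pos
    · intro u hu
      obtain ⟨v, hv, rfl⟩ := Finset.mem_image.1 hu
      exact (hp r v hv).trans_le (hN r v hv)
    · exact hD.image _
  have hfin : Real.log Z ≤ θ * Real.log (∏ r, ∑ u ∈ D.image (f r), N r u) := by
    rw [Real.log_prod (fun r _ => (hS0 r).ne')]
    have h1 := Finset.sum_le_sum fun r (_ : r ∈ univ) => hgibbs r
    rw [Finset.sum_add_distrib] at h1
    have h2 : H ≤ θ * ∑ r, ∑ v ∈ D, P v * Real.log (1 / Pr r (f r v)) := by
      rw [hθ, div_mul_eq_mul_div, one_mul, le_div_iff₀ (by positivity)]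
      linarith
    rw [hlogZ]
    have h3 := mul_le_mul_of_nonneg_left h1 hθ0.le
    rw [mul_add] at h3
    linarith
  rw [← Real.log_rpow (Finset.prod_pos fun r _ => hS0 r)] at hfin
  exact (Real.log_le_log_iff hZ0 (Real.rpow_pos_of_pos (Finset.prod_pos fun r _ => hS0 r) _)).1
    hfin

end Pool.Agent.U685.LM
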