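import Mathlib
import Pool.Agent.U685.LM.Func

/-!
Trees whose sets of next digits have few points on every line of given slopes.
-/

namespace Pool.Agent.U685.LM

open Finset

/-- `x + r y` for the digit `v = (x, y)` -/
def pr (r : ℚ) (v : ℤ × ℤ) : ℚ := (v.1 : ℚ) + r * v.2

/-- the projection `π_r(A)`, digit by digit -/
def projD {n : ℕ} (r : ℚ) (A : Finset (Fin n → ℤ × ℤ)) : Finset (Fin n → ℚ) :=
  A.image fun a i => pr r (a i)

/-- After every initial part of a point of `A` the next digits have at most `m` points on every line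
`x + r y = u`, `r ∈ S`. -/
def Branch {n : ℕ} (m : ℕ) (S : Finset ℚ) (A : Finset (Fin n → ℤ × ℤ)) : Prop :=
  ∀ a ∈ A, ∀ i, ∀ r ∈ S, (((A.filter fun b => ∀ j < i, b j = a j).image fun b => b i).filter
    fun v => pr r v = pr r (a i)).card ≤ m

/-- the points over the first digit `v` -/
def sub {n : ℕ} (A : Finset (Fin (n + 1) → ℤ × ℤ)) (v : ℤ × ℤ) : Finset (Fin n → ℤ × ℤ) :=
  (A.filter fun b => b 0 = v).image Fin.tail

lemma mem_sub {n : ℕ} {A : Finset (Fin (n + 1) → ℤ × ℤ)} {v : ℤ × ℤ} {b : Fin n → ℤ × ℤ} :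
    b ∈ sub A v ↔ (Fin.cons v b : Fin (n + 1) → ℤ × ℤ) ∈ A := by
  unfold sub
  rw [Finset.mem_image]
  constructor
  · rintro ⟨a, ha, rfl⟩
    obtain ⟨h1, rfl⟩ := Finset.mem_filter.1 ha
    rwa [Fin.cons_self_tail]
  · intro h
    exact ⟨_, Finset.mem_filter.2 ⟨h, rfl⟩, Fin.tail_cons _ _⟩

lemma card_sub {n : ℕ} (A : Finset (Fin (n + 1) → ℤ × ℤ)) :
    (A.card : ℝ) = ∑ v ∈ A.image (fun a => a 0), ((sub A v).card : ℝ) := by
  have h := Finset.card_eq_sum_card_fiberwise (s := A) (f := fun a => a 0)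
    (t := A.image (fun a => a 0)) (fun a ha => Finset.mem_image_of_mem _ ha)
  rw [h]
  push_cast
  refine Finset.sum_congr rfl fun v _ => ?_
  unfold sub
  rw [Finset.card_image_of_injOn]
  intro a ha b hb hab
  have h1 := (Finset.mem_filter.1 (Finset.mem_coe.1 ha)).2
  have h2 := (Finset.mem_filter.1 (Finset.mem_coe.1 hb)).2
  rw [← Fin.cons_self_tail a, ← Fin.cons_self_tail b, h1, h2, hab]

lemma branch_sub {n : ℕ} {m : ℕ} {S : Finset ℚ} {A : Finset (Fin (n + 1) → ℤ × ℤ)}
    (h : Branch m S A) (v : ℤ × ℤ) : Branch m S (sub A v) := by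
  intro a ha i r hr
  have ha' := mem_sub.1 ha
  refine le_trans (Finset.card_le_card ?_) (h _ ha' i.succ r hr)
  intro w hw
  obtain ⟨hw1, hw2⟩ := Finset.mem_filter.1 hw
  obtain ⟨b, hb, rfl⟩ := Finset.mem_image.1 hw1
  obtain ⟨hb1, hb2⟩ := Finset.mem_filter.1 hb
  rw [Finset.mem_filter]
  refine ⟨Finset.mem_image.2 ⟨Fin.cons v b, Finset.mem_filter.2 ⟨mem_sub.1 hb1, ?_⟩, ?_⟩, ?_⟩
  · intro j
    refine Fin.cases ?_ (fun j' => ?_) j
    · intro _; rfl
    · intro hj
      simpa using hb2 j' (Fin.succ_lt_succ_iff.1 hj)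
  · simp
  · simpa using hw2

lemma pr_inj {v w : ℤ × ℤ} (hvw : v ≠ w) {r s : ℚ} (h1 : pr r v = pr r w) (h2 : pr s v = pr s w) :
    r = s := by
  unfold pr at h1 h2
  by_contra hrs
  have h3 : (r - s) * ((v.2 : ℚ) - w.2) = 0 := by linarith
  rcases mul_eq_zero.1 h3 with h | h
  · exact hrs (sub_eq_zero.1 h)
  · have h4 : (v.2 : ℚ) = w.2 := sub_eq_zero.1 h
    rw [h4] at h1
    have h5 : (v.1 : ℚ) = w.1 := by linarith
    exact hvw (Prod.ext (by exact_mod_cast h5) (by exact_mod_cast h4))

theorem tree (m : ℕ) (S : Finset ℚ) (hS : S.Nonempty) (lam : ℝ) (hl0 : 0 < lam) (hl1 : lam < 1)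
    (heta : eta S.card m lam < 1) (n : ℕ) : ∀ A : Finset (Fin n → ℤ × ℤ), A.Nonempty →
    Branch m S A → (A.card : ℝ) ≤ (∏ r ∈ S, ((projD r A).card : ℝ)) ^
      (1 / (S.card * (1 - eta S.card m lam)) : ℝ) := by
  have hcS : Fintype.card S = S.card := Fintype.card_coe S
  have hSp : (0 : ℝ) < S.card := by exact_mod_cast hS.card_pos
  have h1η : 0 < 1 - eta S.card m lam := by linarith
  induction n with
  | zero =>
    intro A hA _
    have h1 : A.card ≤ 1 := Finset.card_le_one.2 fun a _ b _ => Subsingleton.elim a b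
    have h2 : (1 : ℝ) ≤ ∏ r ∈ S, ((projD r A).card : ℝ) := by
      rw [← Finset.prod_const_one (s := S)]
      apply Finset.prod_le_prod
      · intro _ _; norm_num
      · intro r _
        have : 0 < (projD r A).card := (hA.image _).card_pos
        exact_mod_cast this
    have h3 : (1 : ℝ) ≤ (∏ r ∈ S, ((projD r A).card : ℝ)) ^
        (1 / (S.card * (1 - eta S.card m lam)) : ℝ) :=
      Real.one_le_rpow h2 (by positivity)
    have h4 : (A.card : ℝ) ≤ 1 := by exact_mod_cast h1
    linarith
  | succ n ih =>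
    intro A hA hBr
    obtain ⟨D, hD⟩ : ∃ D, D = A.image (fun a => a 0) := ⟨_, rfl⟩
    have hDn : D.Nonempty := by rw [hD]; exact hA.image _
    have : Nonempty S := hS.coe_sort
    have hsubn : ∀ v ∈ D, (sub A v).Nonempty := by
      intro v hv
      rw [hD] at hv
      obtain ⟨a, ha, rfl⟩ := Finset.mem_image.1 hv
      exact ⟨Fin.tail a, mem_sub.2 (by rwa [Fin.cons_self_tail])⟩
    have hp : ∀ r : ℚ, ∀ v ∈ D, 0 < ((projD r (sub A v)).card : ℝ) := by
      intro r v hv
      exact_mod_cast ((hsubn v hv).image _).card_pos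
    have key := functional D hDn S (fun r v => pr r.1 v) m (by
        intro r v hv
        rw [hD] at hv ⊢
        obtain ⟨a, ha, rfl⟩ := Finset.mem_image.1 hv
        have h1 := hBr a ha 0 r.1 r.2
        have h2 : (A.filter fun b => ∀ j < (0 : Fin (n + 1)), b j = a j) = A := by
          rw [Finset.filter_true_of_mem]
          intro b _ j hj
          exact absurd hj (Fin.not_lt_zero j)
        rw [h2] at h1
        exact h1) (by
        intro v _ w _ hvw r s h1 h2
        exact Subtype.ext (pr_inj hvw h1 h2)) lam hl0 hl1 (by rw [hcS]; exact heta)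
      (fun r v => ((projD r.1 (sub A v)).card : ℝ)) (fun r v hv => hp r.1 v hv)
      (fun r u => (((projD r.1 A).filter fun z => z 0 = u).card : ℝ)) (by
        intro r v hv
        have : (projD r.1 (sub A v)).card ≤
            ((projD r.1 A).filter fun z => z 0 = pr r.1 v).card := by
          apply Finset.card_le_card_of_injOn (fun z => (Fin.cons (pr r.1 v) z : Fin (n + 1) → ℚ))
          · intro z hz
            obtain ⟨b, hb, rfl⟩ := Finset.mem_image.1 (Finset.mem_coe.1 hz)
            rw [Finset.mem_coe, Finset.mem_filter]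
            refine ⟨Finset.mem_image.2 ⟨_, mem_sub.1 hb, ?_⟩, rfl⟩
            funext i
            refine Fin.cases ?_ (fun i' => ?_) i
            · simp
            · simp
          · intro z _ z' _ h
            exact Fin.cons_right_injective (α := fun _ => ℚ) _ h
        exact_mod_cast this)
    have h2 : ∀ r : ℚ, ∑ u ∈ D.image (fun v => pr r v),
        (((projD r A).filter fun z => z 0 = u).card : ℝ) = (projD r A).card := by
      intro r
      have h := Finset.card_eq_sum_card_fiberwise (s := projD r A) (f := fun z => z 0)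
        (t := D.image (fun v => pr r v)) (by
          intro z hz
          obtain ⟨a, ha, rfl⟩ := Finset.mem_image.1 (Finset.mem_coe.1 hz)
          rw [hD]
          exact Finset.mem_coe.2 (Finset.mem_image_of_mem _ (Finset.mem_image_of_mem _ ha)))
      rw [h]
      push_cast
      rfl
    rw [hcS] at key
    have h3 : ∏ r : S, ∑ u ∈ D.image (fun v => pr r.1 v),
        (((projD r.1 A).filter fun z => z 0 = u).card : ℝ) = ∏ r ∈ S, ((projD r A).card : ℝ) := by
      simp only [h2]
      exact Finset.prod_coe_sort S (fun r => ((projD r A).card : ℝ))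
    rw [h3] at key
    refine le_trans ?_ key
    rw [card_sub A, ← hD]
    apply Finset.sum_le_sum
    intro v hv
    have h4 := ih (sub A v) (hsubn v hv) (branch_sub hBr v)
    refine h4.trans (le_of_eq ?_)
    congr 1
    exact (Finset.prod_coe_sort S (fun r => ((projD r (sub A v)).card : ℝ))).symm

end Pool.Agent.U685.LM
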