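import Mathlib
import Pool.Agent.U685.LM.Tree

/-!
Explicit constants, evaluation in a large base, and sets closed under cancellation.
-/

namespace Pool.Agent.U685.LM

open Finset

/-- `ε` is admissible for `m` and the number `k` of slopes. -/
def Enough (ε : ℝ) (m k : ℕ) : Prop := (m : ℝ) ^ (8 / ε) ≤ k ∧ 100 / ε ^ 2 ≤ k

/-- the largest size of a projection -/
def bigD {n : ℕ} (S : Finset ℚ) (A : Finset (Fin n → ℤ × ℤ)) : ℕ := S.sup fun r => (projD r A).card

theorem explicit (ε : ℝ) (hε : 0 < ε) (hε1 : ε ≤ 1) (m : ℕ) (hm : 1 ≤ m) (S : Finset ℚ)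
    (hk : Enough ε m S.card) (n : ℕ) (A : Finset (Fin n → ℤ × ℤ)) (hB : Branch m S A) :
    (A.card : ℝ) ≤ (bigD S A : ℝ) ^ (1 + ε) := by
  rcases A.eq_empty_or_nonempty with rfl | hA
  · simp only [Finset.card_empty, Nat.cast_zero]
    positivity
  obtain ⟨hk1, hk2⟩ := hk
  obtain ⟨k, hkk⟩ : ∃ k : ℝ, k = S.card := ⟨_, rfl⟩
  rw [← hkk] at hk1 hk2
  have hε2 : ε ^ 2 ≤ 1 := by nlinarith
  have hk100 : 100 ≤ k := by
    have : 100 ≤ 100 / ε ^ 2 := by
      rw [le_div_iff₀ (by positivity)]; nlinarith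
    linarith
  have hk0 : 0 < k := by linarith
  have hSn : S.Nonempty := by
    rw [← Finset.card_pos]
    have : (0 : ℝ) < S.card := by rw [← hkk]; exact hk0
    exact_mod_cast this
  have hsq : 10 / ε ≤ Real.sqrt k := by
    apply Real.le_sqrt_of_sq_le
    rw [div_pow]
    norm_num
    exact hk2
  have hsq0 : 0 < Real.sqrt k := Real.sqrt_pos.2 hk0
  have hsqk : Real.sqrt k * Real.sqrt k = k := Real.mul_self_sqrt hk0.le
  have hsq10 : 10 ≤ Real.sqrt k := by
    have : 10 ≤ 10 / ε := by rw [le_div_iff₀ hε]; linarith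
    linarith
  obtain ⟨lam, hlam⟩ : ∃ lam, lam = 1 / Real.sqrt k := ⟨_, rfl⟩
  have hl0 : 0 < lam := by rw [hlam]; positivity
  have hl1 : lam < 1 := by
    rw [hlam, div_lt_one hsq0]; linarith
  have hlogk : 0 < Real.log k := Real.log_pos (by linarith)
  have hloglam : Real.log (1 / lam) = Real.log k / 2 := by
    rw [hlam, one_div_one_div, Real.log_sqrt hk0.le]
  have hm0 : (0 : ℝ) < m := by exact_mod_cast hm
  have hlogm : Real.log m ≤ ε / 8 * Real.log k := by
    have h1 := Real.log_le_log (by positivity) hk1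
    rw [Real.log_rpow hm0] at h1
    have h2 := mul_le_mul_of_nonneg_left h1 (by positivity : 0 ≤ ε / 8)
    have h3 : ε / 8 * (8 / ε * Real.log m) = Real.log m := by field_simp
    linarith
  have heta : eta S.card m lam ≤ ε / 2 := by
    unfold eta
    rw [← hkk, hloglam]
    have h1 : Real.log m / (Real.log k / 2) ≤ ε / 4 := by
      rw [div_le_iff₀ (by positivity)]
      linarith
    have h2 : lam * k = Real.sqrt k := by
      rw [hlam, one_div, inv_mul_eq_div, div_eq_iff hsq0.ne', hsqk]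
    rw [h2]
    have h3 : (5 / 2) / Real.sqrt k ≤ ε / 4 := by
      rw [div_le_iff₀ hsq0]
      have := mul_le_mul_of_nonneg_left hsq (by positivity : 0 ≤ ε / 4)
      have h4 : ε / 4 * (10 / ε) = 5 / 2 := by field_simp; norm_num
      linarith
    linarith
  have key := tree m S hSn lam hl0 hl1 (by linarith) n A hA hB
  obtain ⟨η, hη⟩ : ∃ η, η = eta S.card m lam := ⟨_, rfl⟩
  rw [← hη, ← hkk] at key
  rw [← hη] at heta
  have h1η : 0 < 1 - η := by linarith
  refine key.trans ?_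
  have hb1 : (1 : ℝ) ≤ bigD S A := by
    obtain ⟨r, hr⟩ := hSn
    have h1 : 0 < (projD r A).card := (hA.image _).card_pos
    have h2 : (projD r A).card ≤ bigD S A := Finset.le_sup (f := fun r => (projD r A).card) hr
    exact_mod_cast h1.trans_le h2
  have h1 : ∏ r ∈ S, ((projD r A).card : ℝ) ≤ (bigD S A : ℝ) ^ k := by
    rw [hkk, Real.rpow_natCast, ← Finset.prod_const]
    apply Finset.prod_le_prod
    · intro _ _; positivity
    · intro r hr
      exact_mod_cast Finset.le_sup (f := fun r => (projD r A).card) hr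
  have h2 := Real.rpow_le_rpow (Finset.prod_nonneg fun r _ => Nat.cast_nonneg _) h1
    (by positivity : 0 ≤ 1 / (k * (1 - η)))
  refine h2.trans ?_
  rw [← Real.rpow_mul (by linarith)]
  apply Real.rpow_le_rpow_of_exponent_le hb1
  have h3 : k * (1 / (k * (1 - η))) = 1 / (1 - η) := by field_simp
  rw [h3, div_le_iff₀ h1η]
  nlinarith

/-! ### evaluation in a large base -/

/-- the point of `ℤ × ℤ` with the digits `a` in base `M` -/
def ev {n : ℕ} (M : ℕ) (a : Fin n → ℤ × ℤ) : ℤ × ℤ :=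
  (∑ i, (a i).1 * (M : ℤ) ^ i.1, ∑ i, (a i).2 * (M : ℤ) ^ i.1)

/-- the projection `π_r(A) = {x + r y : (x, y) ∈ A}` -/
def proj (r : ℚ) (A : Finset (ℤ × ℤ)) : Finset ℚ :=
  A.image (fun p : ℤ × ℤ => (p.1 : ℚ) + r * (p.2 : ℚ))

lemma eval_inj {n : ℕ} (Z : Finset (Fin n → ℚ)) : ∃ M₀ : ℕ, ∀ M : ℕ, M₀ ≤ M →
    Set.InjOn (fun z : Fin n → ℚ => ∑ i, z i * (M : ℚ) ^ i.1) Z := by
  classical
  have h1 : ∀ d : Fin n → ℚ, d ≠ 0 → ∃ M₀ : ℕ, ∀ M : ℕ, M₀ ≤ M →
      ∑ i, d i * (M : ℚ) ^ i.1 ≠ 0 := by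
    intro d hd
    obtain ⟨p, hp⟩ : ∃ p : Polynomial ℚ, p = ∑ i, Polynomial.C (d i) * Polynomial.X ^ i.1 :=
      ⟨_, rfl⟩
    have hp0 : p ≠ 0 := by
      intro h
      apply hd
      funext i
      have h2 : p.coeff i.1 = d i := by
        rw [hp, Polynomial.finsetSum_coeff]
        simp only [Polynomial.coeff_C_mul_X_pow]
        rw [Finset.sum_eq_single i]
        · simp
        · intro j _ hj
          rw [if_neg]
          intro h
          exact hj (Fin.ext h.symm)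
        · intro h; exact absurd (Finset.mem_univ i) h
      rw [h, Polynomial.coeff_zero] at h2
      exact h2.symm
    have hev : ∀ M : ℕ, p.eval (M : ℚ) = ∑ i, d i * (M : ℚ) ^ i.1 := by
      intro M
      rw [hp, Polynomial.eval_finsetSum]
      simp
    obtain ⟨B, hB⟩ : ∃ B : ℕ, ∀ x ∈ p.roots.toFinset, x < B := by
      obtain ⟨B, hB⟩ := exists_nat_gt (∑ x ∈ p.roots.toFinset, |x|)
      refine ⟨B, fun x hx => lt_of_le_of_lt ?_ hB⟩
      exact (le_abs_self x).trans (Finset.single_le_sum (f := fun x => |x|)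
        (fun y _ => abs_nonneg y) hx)
    refine ⟨B, fun M hM h => ?_⟩
    have h3 : (M : ℚ) ∈ p.roots.toFinset := by
      rw [Multiset.mem_toFinset, Polynomial.mem_roots hp0, Polynomial.IsRoot.def, hev, h]
    have h4 := hB _ h3
    have h5 : (B : ℚ) ≤ M := by exact_mod_cast hM
    linarith
  choose! B hB using h1
  refine ⟨(Z ×ˢ Z).sup (fun q => B (q.1 - q.2)), fun M hM z hz w hw hzw => ?_⟩
  by_contra hne
  have h2 : z - w ≠ 0 := sub_ne_zero.2 hne
  have h3 : B (z - w) ≤ M := le_trans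
    (Finset.le_sup (f := fun q : (Fin n → ℚ) × (Fin n → ℚ) => B (q.1 - q.2))
      (Finset.mem_product.2 ⟨Finset.mem_coe.1 hz, Finset.mem_coe.1 hw⟩ :
        ((z, w) : (Fin n → ℚ) × (Fin n → ℚ)) ∈ Z ×ˢ Z)) hM
  apply hB (z - w) h2 M h3
  dsimp only at hzw
  simp only [Pi.sub_apply, sub_mul, Finset.sum_sub_distrib]
  rw [hzw, sub_self]

lemma proj_ev {n : ℕ} (r : ℚ) (A : Finset (Fin n → ℤ × ℤ)) (M : ℕ) :
    proj r (A.image (ev M)) = (projD r A).image (fun z => ∑ i, z i * (M : ℚ) ^ i.1) := by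
  unfold proj projD
  rw [Finset.image_image, Finset.image_image]
  apply Finset.image_congr
  intro a _
  simp only [Function.comp_apply, ev, pr]
  push_cast
  rw [Finset.mul_sum, ← Finset.sum_add_distrib]
  refine Finset.sum_congr rfl fun i _ => by ring

lemma card_proj_ev {n : ℕ} (S : Finset ℚ) (A : Finset (Fin n → ℤ × ℤ)) :
    ∃ M₀ : ℕ, ∀ M : ℕ, M₀ ≤ M → ∀ r ∈ S, (proj r (A.image (ev M))).card = (projD r A).card := by
  have h := fun r : ℚ => eval_inj (projD r A)
  choose B hB using h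
  refine ⟨S.sup B, fun M hM r hr => ?_⟩
  rw [proj_ev, Finset.card_image_of_injOn]
  exact hB r M ((Finset.le_sup (f := B) hr).trans hM)

/-! ### cancellation -/

lemma branch_axes {n : ℕ} (S : Finset ℚ) (h0 : (0 : ℚ) ∉ S) (A : Finset (Fin n → ℤ × ℤ))
    (hA : ∀ a ∈ A, ∀ i, (a i).1 = 0 ∨ (a i).2 = 0) : Branch 2 S A := by
  intro a _ i r hr
  have hr0 : r ≠ 0 := fun h => h0 (h ▸ hr)
  obtain ⟨T, hT⟩ : ∃ T, T = ((A.filter fun b => ∀ j < i, b j = a j).image fun b => b i).filter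
    (fun v => pr r v = pr r (a i)) := ⟨_, rfl⟩
  rw [← hT]
  have hT1 : ∀ v ∈ T, pr r v = pr r (a i) ∧ (v.1 = 0 ∨ v.2 = 0) := by
    intro v hv
    rw [hT] at hv
    obtain ⟨h1, h2⟩ := Finset.mem_filter.1 hv
    obtain ⟨b, hb, rfl⟩ := Finset.mem_image.1 h1
    exact ⟨h2, hA b (Finset.mem_filter.1 hb).1 i⟩
  have hsplit : T = T.filter (fun v => v.1 = 0) ∪ T.filter (fun v => v.2 = 0) := by
    ext v
    rw [Finset.mem_union, Finset.mem_filter, Finset.mem_filter]
    constructor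
    · intro hv
      rcases (hT1 v hv).2 with h | h
      · exact Or.inl ⟨hv, h⟩
      · exact Or.inr ⟨hv, h⟩
    · rintro (h | h) <;> exact h.1
  have h1 : (T.filter (fun v => v.1 = 0)).card ≤ 1 := by
    rw [Finset.card_le_one]
    intro v hv w hw
    obtain ⟨hv1, hv2⟩ := Finset.mem_filter.1 hv
    obtain ⟨hw1, hw2⟩ := Finset.mem_filter.1 hw
    have h3 := (hT1 v hv1).1.trans (hT1 w hw1).1.symm
    unfold pr at h3
    rw [hv2, hw2] at h3
    have h4 : (v.2 : ℚ) = w.2 := by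
      have : r * (v.2 : ℚ) = r * w.2 := by linarith
      exact mul_left_cancel₀ hr0 this
    exact Prod.ext (hv2.trans hw2.symm) (by exact_mod_cast h4)
  have h2 : (T.filter (fun v => v.2 = 0)).card ≤ 1 := by
    rw [Finset.card_le_one]
    intro v hv w hw
    obtain ⟨hv1, hv2⟩ := Finset.mem_filter.1 hv
    obtain ⟨hw1, hw2⟩ := Finset.mem_filter.1 hw
    have h3 := (hT1 v hv1).1.trans (hT1 w hw1).1.symm
    unfold pr at h3
    rw [hv2, hw2] at h3
    have h4 : (v.1 : ℚ) = w.1 := by linarith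
    exact Prod.ext (by exact_mod_cast h4) (hv2.trans hw2.symm)
  have h3 := Finset.card_union_le (T.filter (fun v => v.1 = 0)) (T.filter (fun v => v.2 = 0))
  rw [← hsplit] at h3
  omega

/-- Cancelling: every point of `A` has the same differences as some point of `A` one of whose
coordinates is `0` in every place. -/
def Cancels {n : ℕ} (A : Finset (Fin n → ℤ × ℤ)) : Prop :=
  ∀ a ∈ A, ∃ b ∈ A, ∀ i, (b i).1 - (b i).2 = (a i).1 - (a i).2 ∧ ((b i).1 = 0 ∨ (b i).2 = 0)

theorem cancel (ε : ℝ) (hε : 0 < ε) (hε1 : ε ≤ 1) (S : Finset ℚ) (h0 : (0 : ℚ) ∉ S)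
    (hk : Enough ε 2 S.card) (n : ℕ) (A : Finset (Fin n → ℤ × ℤ)) (hA : Cancels A) :
    ((projD (-1) A).card : ℝ) ≤ (bigD S A : ℝ) ^ (1 + ε) := by
  obtain ⟨A', hA'⟩ : ∃ A', A' = A.filter (fun a => ∀ i, (a i).1 = 0 ∨ (a i).2 = 0) := ⟨_, rfl⟩
  have hsub : A' ⊆ A := by rw [hA']; exact Finset.filter_subset _ _
  have h1 : projD (-1) A ⊆ projD (-1) A' := by
    intro z hz
    obtain ⟨a, ha, rfl⟩ := Finset.mem_image.1 hz
    obtain ⟨b, hb, h⟩ := hA a ha
    refine Finset.mem_image.2 ⟨b, ?_, ?_⟩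
    · rw [hA']; exact Finset.mem_filter.2 ⟨hb, fun i => (h i).2⟩
    · funext i
      have h2 := (h i).1
      have h3 : ((b i).1 : ℚ) - (b i).2 = (a i).1 - (a i).2 := by exact_mod_cast h2
      unfold pr
      linarith
  have h2 : ((projD (-1) A).card : ℝ) ≤ A'.card := by
    have h3 := (Finset.card_le_card h1).trans Finset.card_image_le
    exact_mod_cast h3
  have h3 := explicit ε hε hε1 2 (by norm_num) S (by exact_mod_cast hk) n A'
    (branch_axes S h0 A' (fun a ha => by rw [hA'] at ha; exact (Finset.mem_filter.1 ha).2))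
  refine h2.trans (h3.trans ?_)
  apply Real.rpow_le_rpow (Nat.cast_nonneg _) _ (by linarith)
  have : bigD S A' ≤ bigD S A := by
    apply Finset.sup_mono_fun
    intro r _
    exact Finset.card_le_card (Finset.image_subset_image hsub)
  exact_mod_cast this

end Pool.Agent.U685.LM
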